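import Pool.Agent.V8H52.TZ5

/-!
# MP_6420b1_an, Q1: the answer is yes

There is a Toeplitz sequence over `{false, true}` such that every invariant Borel probability
measure (in particular every ergodic one, and an ergodic one exists) of its orbit closure is
partially rigid but not rigid.
-/

set_option autoImplicit false

open MeasureTheory Pool.Agent.V8H52.TZ

namespace Pool.Agent.Results.MP_6420b1_an.NonRigidToeplitz

theorem result :
    ∃ x : ℤ → Bool, IsToeplitz x ∧
      (∃ μ : Measure (orbitClosure x), IsProbabilityMeasure μ ∧ Ergodic (shiftOn x) μ ∧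
        PartiallyRigid (shiftOn x) μ ∧ ¬ Rigid (shiftOn x) μ) ∧
      ∀ μ : Measure (orbitClosure x), IsProbabilityMeasure μ →
        MeasurePreserving (shiftOn x) μ μ →
        PartiallyRigid (shiftOn x) μ ∧ ¬ Rigid (shiftOn x) μ := by
  have key : ∀ μ : Measure (orbitClosure Pool.Agent.V8H52.TZ.x), IsProbabilityMeasure μ →
      MeasurePreserving (shiftOn Pool.Agent.V8H52.TZ.x) μ μ →
      PartiallyRigid (shiftOn Pool.Agent.V8H52.TZ.x) μ ∧
        ¬ Rigid (shiftOn Pool.Agent.V8H52.TZ.x) μ :=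
    fun μ _ h => ⟨partially_rigid h, not_rigid h⟩
  refine ⟨Pool.Agent.V8H52.TZ.x, ⟨?_, fun n => ?_⟩, ?_, key⟩
  · rintro ⟨n, hn, h⟩
    obtain ⟨t, ht⟩ := x_not_periodic n hn
    exact ht (h t)
  · obtain ⟨P, h1, h2⟩ := x_toeplitz n
    exact ⟨P, h1, h2⟩
  · obtain ⟨μ, h1, h2⟩ := Erg.exists_ergodic (shiftOn Pool.Agent.V8H52.TZ.x).continuous
    obtain ⟨h3, h4⟩ := key μ h1 h2.toMeasurePreserving
    exact ⟨μ, h1, h2, h3, h4⟩

end Pool.Agent.Results.MP_6420b1_an.NonRigidToeplitz
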